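import Mathlib
import Pool.Agent.Work.MP_e17eac_co.DH.Final

set_option autoImplicit false

namespace Pool.Agent.Results.MP_e17eac_co.DenseSets

open Finset Pool.Agent.Work.MP_e17eac_co

/-- General position: no three distinct points of `P` lie on a common line. -/
def GeneralPosition (P : Finset (ℝ × ℝ)) : Prop :=
  ∀ p ∈ P, ∀ q ∈ P, ∀ r ∈ P, p ≠ q → p ≠ r → q ≠ r → side p q r ≠ 0

open Classical in
/-- The `k`-edges of a finite planar point set `P`: the two-element subsets `{p, q}` of `P` such
that the line through `p` and `q` has exactly `k` points of `P` strictly on one side and the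
remaining `|P| - 2 - k` points of `P` strictly on the other side.
For `|P|` even and `k = |P| / 2 - 1` these are the halving lines (bisectors) of `P`. -/
noncomputable def kEdges (P : Finset (ℝ × ℝ)) (k : ℕ) : Finset (Finset (ℝ × ℝ)) :=
  (P.powersetCard 2).filter fun e => ∃ p q : ℝ × ℝ, e = {p, q} ∧ IsKEdge P k p q

/-- The Euclidean distance of two points of the plane. -/
noncomputable def distE (p q : ℝ × ℝ) : ℝ := Real.sqrt ((p.1 - q.1) ^ 2 + (p.2 - q.2) ^ 2)

/-- There is an absolute constant `C` such that every finite planar point set `P` in general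
position all of whose distances lie between `d` and `R d` has at most `C R^(7/3 - 10^(-9))` many
`k`-edges, for every `k`.  For dense sets of `n` points (`R = α √n`) the bound is
`C α^(7/3 - 10^(-9)) n^(7/6 - 10^(-9)/2)`. -/
theorem result : ∃ C : ℝ, 0 < C ∧ ∀ P : Finset (ℝ × ℝ), GeneralPosition P →
    ∀ R d : ℝ, 1 ≤ R → 0 < d →
    (∀ p ∈ P, ∀ q ∈ P, p ≠ q → d ≤ distE p q ∧ distE p q ≤ R * d) →
    ∀ k : ℕ, ((kEdges P k).card : ℝ) ≤ C * R ^ ((7 : ℝ) / 3 - 1 / 10 ^ 9) := by
  obtain ⟨C, h0, H⟩ := DH.TResII
  exact ⟨C, h0, fun P hP R d hR hd h k => H P R d hR hd hP h k⟩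

end Pool.Agent.Results.MP_e17eac_co.DenseSets
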