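import Mathlib
import Pool.Agent.Work.MP_e17eac_co.StripMain

/-!
# Halving lines and `k`-edges of independent random points

Let `X_1, ..., X_n` be independent random points of the plane, not necessarily identically
distributed, such that every strip of width `w` catches each of them with probability at most
`M w`, and whose mean distance to some fixed point is at most `R` on average. Then for every `k`
the expected number of `k`-edges is at most `6 n √(M R)`.
-/

namespace Pool.Agent.Results.MP_e17eac_co.IndependentPoints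

open MeasureTheory Pool.Agent.Work.MP_e17eac_co

/-- Let `X_i` be independent random points of the plane with laws `μ i` such that
`P (X_i in S) ≤ M w` for every strip `S` of width `w`, and let the average over `i` of the mean
Euclidean distance of `X_i` to some fixed point `c` be at most `R`. Then for every `k` the
expected number of pairs `i < j` for which the line through `X_i`, `X_j` has exactly `k` of the
points strictly on one side and the other `n - 2 - k` strictly on the other side is at most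
`6 n √(M R)`. Moreover the points are almost surely in general position. -/
theorem result (n k : ℕ) (μ : Fin n → Measure (ℝ × ℝ)) [∀ i, IsProbabilityMeasure (μ i)]
    (M R : ℝ) (hM : 0 < M) (hR : 0 < R) (hμ : ∀ i, StripBound M (μ i)) (c : ℝ × ℝ)
    (hc : ∑ i, ∫⁻ a, ENNReal.ofReal (Real.sqrt ((a.1 - c.1) ^ 2 + (a.2 - c.2) ^ 2)) ∂(μ i) ≤
      ENNReal.ofReal (n * R)) :
    (∀ᵐ x ∂(Measure.pi μ), Function.Injective x ∧ ∀ i j m : Fin n,
      i ≠ j → i ≠ m → j ≠ m → side (x i) (x j) (x m) ≠ 0) ∧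
    ∫ x, ((kPairs k x).card : ℝ) ∂(Measure.pi μ) ≤ 6 * n * Real.sqrt (M * R) := by
  refine ⟨(Strip.ae_inj μ hμ).and (Strip.ae_general μ hμ), ?_⟩
  have hpt : ∀ a : ℝ × ℝ, ENNReal.ofReal (|a.1 - c.1| + |a.2 - c.2|) ≤
      ENNReal.ofReal (Real.sqrt 2) *
        ENNReal.ofReal (Real.sqrt ((a.1 - c.1) ^ 2 + (a.2 - c.2) ^ 2)) := by
    intro a
    rw [← ENNReal.ofReal_mul (Real.sqrt_nonneg _)]
    apply ENNReal.ofReal_le_ofReal
    rw [← Real.sqrt_mul (by norm_num)]
    apply Real.le_sqrt_of_sq_le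
    rw [← sq_abs (a.1 - c.1), ← sq_abs (a.2 - c.2)]
    nlinarith [sq_nonneg (|a.1 - c.1| - |a.2 - c.2|)]
  have hmeas : Measurable (fun a : ℝ × ℝ =>
      ENNReal.ofReal (Real.sqrt ((a.1 - c.1) ^ 2 + (a.2 - c.2) ^ 2))) := by
    apply Measurable.ennreal_ofReal
    fun_prop
  have hc' : ∑ i, ∫⁻ a, ENNReal.ofReal (|a.1 - c.1| + |a.2 - c.2|) ∂(μ i) ≤
      ENNReal.ofReal (n * (Real.sqrt 2 * R)) := by
    calc ∑ i, ∫⁻ a, ENNReal.ofReal (|a.1 - c.1| + |a.2 - c.2|) ∂(μ i) ≤
        ∑ i, ∫⁻ a, ENNReal.ofReal (Real.sqrt 2) *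
          ENNReal.ofReal (Real.sqrt ((a.1 - c.1) ^ 2 + (a.2 - c.2) ^ 2)) ∂(μ i) := by
          gcongr with i _ a
          exact hpt a
      _ = ENNReal.ofReal (Real.sqrt 2) * ∑ i, ∫⁻ a,
          ENNReal.ofReal (Real.sqrt ((a.1 - c.1) ^ 2 + (a.2 - c.2) ^ 2)) ∂(μ i) := by
          rw [Finset.mul_sum]
          apply Finset.sum_congr rfl
          intro i _
          rw [lintegral_const_mul _ hmeas]
      _ ≤ ENNReal.ofReal (Real.sqrt 2) * ENNReal.ofReal (n * R) := by gcongr
      _ = ENNReal.ofReal (n * (Real.sqrt 2 * R)) := by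
          rw [← ENNReal.ofReal_mul (Real.sqrt_nonneg _)]
          congr 1
          ring
  have h := strip_kEdges n k μ hM (by positivity : 0 < Real.sqrt 2 * R) hμ c hc'
  refine h.trans ?_
  have hs2 : Real.sqrt 2 < 1.4143 := by
    rw [Real.sqrt_lt' (by norm_num)]
    norm_num
  have hpi : Real.pi < 3.1416 := Real.pi_lt_d4
  have h1 : Real.sqrt (2 * Real.pi * M * (Real.sqrt 2 * R)) ≤ 3 * Real.sqrt (M * R) := by
    have h9 : (3 : ℝ) = Real.sqrt 9 := by
      rw [show (9 : ℝ) = 3 ^ 2 by norm_num, Real.sqrt_sq (by norm_num)]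
    rw [h9, ← Real.sqrt_mul (by norm_num)]
    apply Real.sqrt_le_sqrt
    have h2 : 2 * Real.pi * Real.sqrt 2 ≤ 9 := by
      have : Real.pi * Real.sqrt 2 ≤ 3.1416 * 1.4143 :=
        mul_le_mul hpi.le hs2.le (Real.sqrt_nonneg _) (by norm_num)
      norm_num at this ⊢
      linarith
    have h3 : 0 < M * R := by positivity
    calc 2 * Real.pi * M * (Real.sqrt 2 * R) = (2 * Real.pi * Real.sqrt 2) * (M * R) := by ring
      _ ≤ 9 * (M * R) := by gcongr
  calc 2 * (n : ℝ) * Real.sqrt (2 * Real.pi * M * (Real.sqrt 2 * R)) ≤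
      2 * n * (3 * Real.sqrt (M * R)) := by gcongr
    _ = 6 * n * Real.sqrt (M * R) := by ring

end Pool.Agent.Results.MP_e17eac_co.IndependentPoints
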