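import Mathlib
import Pool.Agent.Work.MP_e17eac_co.GridMain

set_option autoImplicit false

namespace Pool.Agent.Results.MP_e17eac_co.PerturbedGrid

open Finset Pool.Agent.Work.MP_e17eac_co

open Classical in
/-- The `k`-edges of a finite planar point set `P`: the two-element subsets `{p, q}` of `P` such
that the line through `p` and `q` has exactly `k` points of `P` strictly on one side and the
remaining `|P| - 2 - k` points of `P` strictly on the other side.
For `|P|` even and `k = |P| / 2 - 1` these are the halving lines (bisectors) of `P`. -/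
noncomputable def kEdges (P : Finset (ℝ × ℝ)) (k : ℕ) : Finset (Finset (ℝ × ℝ)) :=
  (P.powersetCard 2).filter fun e => ∃ p q : ℝ × ℝ, e = {p, q} ∧ IsKEdge P k p q

/-- Let `P` be a finite planar point set that is obtained from a subset of the `m × m` integer
grid by moving every point by at most `δ ≤ 1` in each coordinate (`φ` sends each point of `P` to
the grid point it comes from).  Then for every `k` the set `P` has at most
`9240 m² √(1 + δ m)` many `k`-edges. -/
theorem result (m : ℕ) (δ : ℝ) (hδ0 : 0 ≤ δ) (hδ1 : δ ≤ 1) (P : Finset (ℝ × ℝ))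
    (φ : ℝ × ℝ → ℤ × ℤ) (hφ : Set.InjOn φ (P : Set (ℝ × ℝ)))
    (hbox : ∀ p ∈ P, 0 ≤ (φ p).1 ∧ (φ p).1 < m ∧ 0 ≤ (φ p).2 ∧ (φ p).2 < m)
    (hclose : ∀ p ∈ P, |p.1 - (φ p).1| ≤ δ ∧ |p.2 - (φ p).2| ≤ δ) (k : ℕ) :
    ((kEdges P k).card : ℝ) ≤ 9240 * (m : ℝ) ^ 2 * Real.sqrt (1 + δ * m) := by
  classical
  have hex : ∀ e ∈ kEdges P k, ∃ f : (ℝ × ℝ) × (ℝ × ℝ), e = {f.1, f.2} ∧ IsKEdge P k f.1 f.2 := by
    intro e he
    simp only [kEdges, mem_filter] at he
    obtain ⟨_, p, q, h1, h2⟩ := he
    exact ⟨(p, q), h1, h2⟩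
  choose! g hg1 hg2 using hex
  have hcard : ((kEdges P k).image g).card = (kEdges P k).card := by
    apply Finset.card_image_of_injOn
    intro e he e' he' h
    rw [hg1 e he, hg1 e' he', h]
  rw [← hcard]
  apply ordered_bound hδ0 hδ1 (P := P) (k := k) ⟨φ, hφ, hbox, hclose⟩
  intro f hf
  simp only [mem_image] at hf
  obtain ⟨e, he, rfl⟩ := hf
  exact hg2 e he

end Pool.Agent.Results.MP_e17eac_co.PerturbedGrid
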