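import Mathlib
import Pool.Agent.Work.MP_e17eac_co.PS.P_Pts
import Pool.Agent.Work.MP_e17eac_co.PS.Final

set_option autoImplicit false

namespace Pool.Agent.Results.MP_e17eac_co.PolynomialSpread

open Finset Pool.Agent.Work.MP_e17eac_co

/-- General position: no three distinct points of `P` lie on a common line. -/
def GeneralPosition (P : Finset (ℝ × ℝ)) : Prop :=
  ∀ p ∈ P, ∀ q ∈ P, ∀ r ∈ P, p ≠ q → p ≠ r → q ≠ r → side p q r ≠ 0

open Classical in
/-- The `k`-edges of a finite planar point set `P`: the two-element subsets `{p, q}` of `P` such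
that the line through `p` and `q` has exactly `k` points of `P` strictly on one side and the
remaining `|P| - 2 - k` points of `P` strictly on the other side.
For `|P|` even and `k = |P| / 2 - 1` these are the halving lines (bisectors) of `P`. -/
noncomputable def kEdges (P : Finset (ℝ × ℝ)) (k : ℕ) : Finset (Finset (ℝ × ℝ)) :=
  (P.powersetCard 2).filter fun e => ∃ p q : ℝ × ℝ, e = {p, q} ∧ IsKEdge P k p q

/-- The spread of `P` is at most `|P| ^ B`: all distances between different points of `P` lie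
between `d` and `|P| ^ B * d`, for some `d > 0`. -/
def SpreadAtMost (B : ℝ) (P : Finset (ℝ × ℝ)) : Prop :=
  ∃ d : ℝ, 0 < d ∧ ∀ p ∈ P, ∀ q ∈ P, p ≠ q →
    d ≤ Real.sqrt ((p.1 - q.1) ^ 2 + (p.2 - q.2) ^ 2) ∧
    Real.sqrt ((p.1 - q.1) ^ 2 + (p.2 - q.2) ^ 2) ≤ (P.card : ℝ) ^ B * d

/-- Some linear functional `(x, y) ↦ a x + b y` has spread at most `|P| ^ B` on `P`: its values at
different points of `P` differ by at least `w` and at most `|P| ^ B * w`, for some `w > 0`. -/
def ProjectionSpreadAtMost (B : ℝ) (P : Finset (ℝ × ℝ)) : Prop :=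
  ∃ a b w : ℝ, 0 < w ∧ ∀ p ∈ P, ∀ q ∈ P, p ≠ q →
    w ≤ |(a * p.1 + b * p.2) - (a * q.1 + b * q.2)| ∧
    |(a * p.1 + b * p.2) - (a * q.1 + b * q.2)| ≤ (P.card : ℝ) ^ B * w

/-- For every `B` there are `c > 0` and `C` such that every finite planar point set `P` in general
position such that `P`, or some linear projection of `P` to a line, has spread at most `|P| ^ B`,
has at most `C |P| ^ (4/3 - c)` many `k`-edges, for every `k`. -/
theorem result : ∀ B : ℝ, 1 ≤ B → ∃ c : ℝ, 0 < c ∧ ∃ C : ℝ, 0 < C ∧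
    ∀ P : Finset (ℝ × ℝ), GeneralPosition P →
    (SpreadAtMost B P ∨ ProjectionSpreadAtMost B P) →
    ∀ k : ℕ, ((kEdges P k).card : ℝ) ≤ C * (P.card : ℝ) ^ ((4 : ℝ) / 3 - c) := by
  intro B hB
  obtain ⟨c, hc, C, hC, H⟩ := PS.I_Pts PS.winSp B hB
  exact ⟨c, hc, C, hC, fun P hP hS k => H P hP hS k⟩

end Pool.Agent.Results.MP_e17eac_co.PolynomialSpread
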